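import Pool.Agent.H331R3.HCCat

/-!
Clique minors and Hadwiger's bound for categorical products `F × G` with an arbitrary second
factor `G`.
-/

set_option autoImplicit false

namespace Pool.Agent.Results.MP_b47bfb_co.CategoricalProduct

/-- Let `F` have a `K_h` minor. If `G` is not bipartite, then the categorical product `F × G` has
a `K_h` minor. If `F` is moreover `h`-colourable, then for every graph `G` there is `k` such that
`F × G` is `k`-colourable and has a `K_k` minor. -/
theorem result (A V : Type) (F : SimpleGraph A) (G : SimpleGraph V) (h : ℕ)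
    (hF : ∃ f : Fin h → Set A,
        (∀ i, (F.induce (f i)).Connected) ∧
        (∀ i j, i ≠ j → Disjoint (f i) (f j)) ∧
        (∀ i j, i ≠ j → ∃ u ∈ f i, ∃ v ∈ f j, F.Adj u v)) :
    (¬ G.Colorable 2 →
      ∃ f : Fin h → Set (A × V),
        (∀ i, ((H331HC.catProd F G).induce (f i)).Connected) ∧
        (∀ i j, i ≠ j → Disjoint (f i) (f j)) ∧
        (∀ i j, i ≠ j → ∃ u ∈ f i, ∃ v ∈ f j, (H331HC.catProd F G).Adj u v)) ∧
    (F.Colorable h →
      ∃ k : ℕ, (H331HC.catProd F G).Colorable k ∧
      ∃ f : Fin k → Set (A × V),
        (∀ i, ((H331HC.catProd F G).induce (f i)).Connected) ∧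
        (∀ i j, i ≠ j → Disjoint (f i) (f j)) ∧
        (∀ i j, i ≠ j → ∃ u ∈ f i, ∃ v ∈ f j, (H331HC.catProd F G).Adj u v)) := by
  classical
  refine ⟨fun hG => H331HC.cat_main F G h hF hG, fun hFc => ?_⟩
  by_cases hG : G.Colorable 2
  · -- the product is bipartite
    by_cases hE : ∃ p q, (H331HC.catProd F G).Adj p q
    · obtain ⟨p, q, hpq⟩ := hE
      refine ⟨2, ?_, ?_⟩
      · obtain ⟨C⟩ := hG
        exact ⟨SimpleGraph.Coloring.mk (fun p => C p.2) (fun h => C.valid h.2)⟩
      · have hfam := H331HC.KMinor.of_family (ι := Bool) (H331HC.catProd F G)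
          (fun i => bif i then {p} else {q}) (by
            intro i; cases i
            · exact H331HC.connected_single _ _
            · exact H331HC.connected_single _ _) (by
            intro i j hij
            cases i <;> cases j
            · exact absurd rfl hij
            · exact Set.disjoint_singleton.2 hpq.ne'
            · exact Set.disjoint_singleton.2 hpq.ne
            · exact absurd rfl hij) (by
            intro i j hij
            cases i <;> cases j
            · exact absurd rfl hij
            · exact ⟨q, rfl, p, rfl, hpq.symm⟩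
            · exact ⟨p, rfl, q, rfl, hpq⟩
            · exact absurd rfl hij)
        exact hfam
    · by_cases hne : Nonempty (A × V)
      · obtain ⟨p⟩ := hne
        refine ⟨1, ?_, ?_⟩
        · exact ⟨SimpleGraph.Coloring.mk (fun _ => 0) (fun {a b} h => (hE ⟨a, b, h⟩).elim)⟩
        · refine ⟨fun _ => {p}, fun _ => H331HC.connected_single _ _, fun i j hij => ?_,
            fun i j hij => ?_⟩
          · exact absurd (Subsingleton.elim i j) hij
          · exact absurd (Subsingleton.elim i j) hij
      · refine ⟨0, ?_, ?_⟩
        · exact ⟨SimpleGraph.Coloring.mk (fun p => (hne ⟨p⟩).elim) (fun {a b} _ => (hne ⟨a⟩).elim)⟩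
        · exact ⟨fun i => i.elim0, fun i => i.elim0, fun i => i.elim0, fun i => i.elim0⟩
  · refine ⟨h, ?_, H331HC.cat_main F G h hF hG⟩
    obtain ⟨C⟩ := hFc
    exact ⟨SimpleGraph.Coloring.mk (fun p => C p.1) (fun h => C.valid h.1)⟩

end Pool.Agent.Results.MP_b47bfb_co.CategoricalProduct
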