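import Mathlib
import Pool.Agent.H484R3.Circ

/-!
MP_b47bfb_co: Q1 for graphs with independence number at most two and a large group of
automorphisms: all vertex-transitive graphs of prime order, circulant graphs of odd order, and
(with the full clique minor) Cayley graphs of abelian groups with exactly one involution.
-/

set_option autoImplicit false

namespace Pool.Agent.Results.MP_b47bfb_co.CirculantAlphaTwo

/-- `K_k` is a minor of `G`: there are `k` pairwise disjoint vertex sets, each inducing a connected
subgraph, any two of them joined by an edge of `G`. -/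
def HasCliqueMinor {V : Type} (G : SimpleGraph V) (k : ℕ) : Prop :=
  ∃ f : Fin k → Set V,
    (∀ i, (G.induce (f i)).Connected) ∧
    (∀ i j, i ≠ j → Disjoint (f i) (f j)) ∧
    (∀ i j, i ≠ j → ∃ u ∈ f i, ∃ v ∈ f j, G.Adj u v)

/-- `G` has no three distinct pairwise nonadjacent vertices. -/
def AlphaAtMostTwo {V : Type} (G : SimpleGraph V) : Prop :=
  ∀ x y z : V, x ≠ y → y ≠ z → x ≠ z → G.Adj x y ∨ G.Adj y z ∨ G.Adj x z

/-- `G` is a Cayley graph of the abelian group `A`: adjacency is invariant under translations. -/
def IsCayley {A : Type} [AddCommGroup A] (G : SimpleGraph A) : Prop :=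
  ∀ x y z : A, G.Adj (x + z) (y + z) ↔ G.Adj x y

/-- (1) Every vertex-transitive graph of prime order with independence number at most two which is
not `k`-colourable has a `K_k` minor.
(2) The same for every Cayley graph `G` of an abelian group of odd order with independence number
at most two for which some generator `b` of the group is not a neighbour of `0` and `b ≠ 0`.
(3) If `A` is an abelian group with exactly one involution `t`, and `G` is a Cayley graph of `A`
with independence number at most two for which some `b` of even order is not a neighbour of `0`,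
then `G` has a `K_{k+1}` minor whenever it is not `k`-colourable. -/
theorem result :
    (∀ (V : Type) [Fintype V] (G : SimpleGraph V), (Fintype.card V).Prime →
      (∀ x y : V, ∃ φ : G ≃g G, φ x = y) → AlphaAtMostTwo G →
      ∀ k : ℕ, ¬ G.Colorable k → HasCliqueMinor G k) ∧
    (∀ (A : Type) [AddCommGroup A] [Fintype A] (G : SimpleGraph A), IsCayley G →
      AlphaAtMostTwo G → Odd (Fintype.card A) →
      ∀ b : A, b ≠ 0 → ¬ G.Adj 0 b → addOrderOf b = Fintype.card A →
      ∀ k : ℕ, ¬ G.Colorable k → HasCliqueMinor G k) ∧
    (∀ (A : Type) [AddCommGroup A] [Fintype A] (G : SimpleGraph A), IsCayley G →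
      AlphaAtMostTwo G →
      ∀ t : A, t ≠ 0 → (∀ s : A, s + s = 0 ↔ s = 0 ∨ s = t) →
      ∀ b : A, ¬ G.Adj 0 b → Even (addOrderOf b) →
      ∀ k : ℕ, ¬ G.Colorable k → HasCliqueMinor G (k + 1)) := by
  refine ⟨?_, ?_, ?_⟩
  · intro V _ G hp htr hα k hk
    exact H484R3.Circ.prime_transitive hp htr hα hk
  · intro A _ _ G hG hα hodd b hb0 hb hgen k hk
    exact H484R3.Circ.minor_odd hG hα hb0 hb hgen hodd hk
  · intro A _ _ G hG hα t ht0 ht b hb he k hk
    exact H484R3.Circ.hadwiger_even hG hα ht0 ht hb he hk

end Pool.Agent.Results.MP_b47bfb_co.CirculantAlphaTwo
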