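import Pool.Agent.H331R3.HCHalf

/-!
Complete minors of order `⌈n / 2⌉` in graphs on `n` vertices in which every vertex has
`O(n ^ (2 / 3))` non-neighbours.
-/

set_option autoImplicit false

namespace Pool.Agent.Results.MP_b47bfb_co.HalfMinor

/-- Let `G` be a graph on `n` vertices in which every vertex has at most `D` non-neighbours, where
`169 * D ^ 3 ≤ n ^ 2`. Then `G` has a `K_m` minor with `m = ⌈n / 2⌉`. -/
theorem result (V : Type) [Fintype V] (G : SimpleGraph V) (D : ℕ)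
    (hD : ∀ x, {y | x ≠ y ∧ ¬ G.Adj x y}.ncard ≤ D)
    (hn : 169 * D ^ 3 ≤ Fintype.card V ^ 2) :
    ∃ f : Fin ((Fintype.card V + 1) / 2) → Set V,
      (∀ i, (G.induce (f i)).Connected) ∧
      (∀ i j, i ≠ j → Disjoint (f i) (f j)) ∧
      (∀ i j, i ≠ j → ∃ u ∈ f i, ∃ v ∈ f j, G.Adj u v) := by
  refine H331HC.half G D ?_ hn
  intro x
  have h : {y | Gᶜ.Adj x y} = {y | x ≠ y ∧ ¬ G.Adj x y} := by
    ext y; exact SimpleGraph.compl_adj G x y
  rw [h]; exact hD x

end Pool.Agent.Results.MP_b47bfb_co.HalfMinor
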