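import Pool.Agent.H331R3.HCLex

/-!
Hadwiger's bound for lexicographic products `F[G]` with an arbitrary second factor `G`.
-/

set_option autoImplicit false

namespace Pool.Agent.Results.MP_b47bfb_co.LexProduct

open Finset

/-- Let `F` have a `K_h` minor with `2 ≤ h`, and let `G` be any finite graph. Then for some `k`
the graph `G` is `k`-colourable and the lexicographic product `F[G]` has a `K_{hk}` minor;
and `F[G]` is `hk`-colourable if `F` is `h`-colourable. -/
theorem result (A V : Type) [Fintype A] [Fintype V] (F : SimpleGraph A) (G : SimpleGraph V)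
    (h : ℕ) (h2 : 2 ≤ h)
    (hF : ∃ f : Fin h → Set A,
        (∀ i, (F.induce (f i)).Connected) ∧
        (∀ i j, i ≠ j → Disjoint (f i) (f j)) ∧
        (∀ i j, i ≠ j → ∃ u ∈ f i, ∃ v ∈ f j, F.Adj u v)) :
    ∃ k : ℕ, G.Colorable k ∧
      (∃ f : Fin (h * k) → Set (A × V),
        (∀ i, ((H331HC.lexProd F G).induce (f i)).Connected) ∧
        (∀ i j, i ≠ j → Disjoint (f i) (f j)) ∧
        (∀ i j, i ≠ j → ∃ u ∈ f i, ∃ v ∈ f j, (H331HC.lexProd F G).Adj u v)) ∧
      (F.Colorable h → (H331HC.lexProd F G).Colorable (h * k)) := by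
  classical
  obtain ⟨g, hg, hadj, hfix⟩ := H331HC.exists_maximal G
  have hc := H331HC.orbit_colouring G g hadj
  exact ⟨_, hc, H331HC.lex_main F G h h2 hF g hg hfix,
    fun hFc => H331HC.lex_colorable F G h _ hFc hc⟩

end Pool.Agent.Results.MP_b47bfb_co.LexProduct
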